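import Pool.Agent.H8.AV3.Stmts

set_option autoImplicit false

namespace Pool.Agent.H87.AV3

open Polynomial Matrix Pool.AVR Pool.AV3

theorem trb_det {K : Type} [Field K] (a b x₁ m₁ xW : K) :
    (!![xW - x₁, m₁, m₁ * (xW - x₁) - m₁ * x₁;
        0, x₁, 3 * x₁ ^ 2 + 2 * a * x₁ + b - x₁ ^ 2;
        0, 1, -x₁] : Matrix (Fin 3) (Fin 3) K).det =
      -((xW - x₁) * (3 * x₁ ^ 2 + 2 * a * x₁ + b)) := by
  simp only [Matrix.det_fin_three, Matrix.of_apply, Matrix.cons_val]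
  ring

theorem TRB_thm : TRBStmt := by
  intro K _ _ a b c x₁ m₁ xW yW x₀ y₀ _ hyW hy0 h1 h2 _ hW hD
  have hy0' : y₀ = -(m₁ * (x₀ - x₁)) := by linear_combination -hy0
  have ha : a = m₁ ^ 2 - (x₁ + xW + x₀) := by linear_combination h1
  have hb : b = x₁ * xW + x₁ * x₀ + xW * x₀ - 2 * m₁ ^ 2 * x₁ := by linear_combination -h2
  refine ⟨?_, ?_⟩
  · rw [trb_det]
    exact isUnit_iff_ne_zero.2 (neg_ne_zero.2 (mul_ne_zero (sub_ne_zero.2 hW) hD))
  · rw [trb_det]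
    clear hD h1 h2 hy0 hW
    subst hy0'
    subst hyW
    subst ha
    subst hb
    funext i
    fin_cases i <;>
    simp only [tsub, tev, tder, FP, Pi.smul_apply, smul_eq_mul, Fin.zero_eta, Fin.isValue,
      Matrix.cons_val, Fin.mk_one, Fin.reduceFinMk, Matrix.of_apply] <;> ring

end Pool.Agent.H87.AV3
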