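import Pool.Agent.H8.AV3.Stmts

set_option autoImplicit false

namespace Pool.Agent.H87.AV3

open Polynomial Matrix Pool.AVR Pool.AV3

theorem trc_det {K : Type} [Field K] (x₀ y₀ t : K) :
    (!![-t, -1, x₀ - t ^ 2; x₀, 0, x₀ * t - 2 * y₀; 1, 0, t] : Matrix (Fin 3) (Fin 3) K).det =
      2 * y₀ := by
  simp only [Matrix.det_fin_three, Matrix.of_apply, Matrix.cons_val]
  ring

theorem TRC_thm : TRCStmt := by
  intro K _ h2 a b c x₀ y₀ t xp yp hy0 _ ht hxp hyp
  have hb : b = 2 * y₀ * t - 3 * x₀ ^ 2 - 2 * a * x₀ := by linear_combination -ht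
  subst hxp
  subst hyp
  subst hb
  refine ⟨?_, ?_⟩
  · rw [trc_det]
    exact isUnit_iff_ne_zero.2 (mul_ne_zero h2 hy0)
  · rw [trc_det]
    funext i
    fin_cases i <;>
    simp only [tsub, tev, tder, FP, Pi.smul_apply, smul_eq_mul, Fin.zero_eta, Fin.isValue,
      Matrix.cons_val, Fin.mk_one, Fin.reduceFinMk, Matrix.of_apply] <;> ring

end Pool.Agent.H87.AV3
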